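import Pool.Agent.Helper91.KZ.StM

namespace Pool.Agent.Helper71.KZ

open Pool.Agent.Helper91.KZ Polynomial TensorProduct

universe u

theorem e1_pow {Z T' K : Type u} [Field Z] [Field T'] [Algebra Z T'] [Ring K] [Algebra Z K]
    (σ' : T' ≃ₐ[Z] T') (i' : T' →ₐ[Z] K) (y' : K) (hy : ∀ t, y' * i' t = i' (σ' t) * y')
    (n : ℕ) (t : T') : y' ^ n * i' t = i' ((σ' ^ n) t) * y' ^ n := by
  induction n generalizing t with
  | zero => simp
  | succ n ih =>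
    rw [pow_succ, mul_assoc, hy, ← mul_assoc, ih, mul_assoc, pow_succ σ' n, AlgEquiv.mul_apply]

theorem e1_pow2 {Z T' K : Type u} [Field Z] [Field T'] [Algebra Z T'] [Ring K] [Algebra Z K]
    (σ' : T' ≃ₐ[Z] T') (i' : T' →ₐ[Z] K) (y' : K) (hy : ∀ t, y' * i' t = i' (σ' t) * y')
    (n : ℕ) (t : T') : (i' t * y') ^ n =
      i' (∏ k ∈ Finset.range n, (σ' ^ k) t) * y' ^ n := by
  induction n with
  | zero => simp
  | succ n ih =>
    rw [pow_succ, ih, Finset.prod_range_succ, map_mul]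
    calc i' (∏ k ∈ Finset.range n, (σ' ^ k) t) * y' ^ n * (i' t * y')
        = i' (∏ k ∈ Finset.range n, (σ' ^ k) t) * (y' ^ n * i' t) * y' := by
          simp only [mul_assoc]
      _ = i' (∏ k ∈ Finset.range n, (σ' ^ k) t) * (i' ((σ' ^ n) t) * y' ^ n) * y' := by
          rw [e1_pow σ' i' y' hy n t]
      _ = _ := by
          rw [pow_succ]
          simp only [mul_assoc]

theorem e1_norm {Z T' : Type u} [Field Z] [Field T'] [Algebra Z T'] [FiniteDimensional Z T']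
    [IsGalois Z T'] (p : ℕ) (hp : p.Prime) (hf : Module.finrank Z T' = p) (σ' : T' ≃ₐ[Z] T')
    (hσ : σ' ≠ 1) (t : T') :
    ∏ k ∈ Finset.range p, (σ' ^ k) t = algebraMap Z T' (Algebra.norm Z t) := by
  classical
  have hcard : Nat.card (T' ≃ₐ[Z] T') = p := by
    rw [IsGalois.card_aut_eq_finrank, hf]
  have : Fact p.Prime := ⟨hp⟩
  have hgen : ∀ x : T' ≃ₐ[Z] T', x ∈ Subgroup.zpowers σ' := fun x =>
    mem_zpowers_of_prime_card hcard hσ
  have hord : orderOf σ' = p := by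
    rw [← hcard]
    exact orderOf_eq_card_of_forall_mem_zpowers hgen
  rw [Algebra.norm_eq_prod_automorphisms]
  have him : Finset.image (fun i => σ' ^ i) (Finset.range p) = Finset.univ := by
    have := IsCyclic.image_range_card hgen
    rwa [hcard] at this
  rw [← him, Finset.prod_image]
  intro a ha b hb hab
  have ha' : a < p := by simpa using ha
  have hb' : b < p := by simpa using hb
  exact pow_injOn_Iio_orderOf (by simpa [hord] using ha') (by simpa [hord] using hb') hab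

theorem st_E1 (hSKN : ST_SKN.{u}) (hKZ0 : ST_KZ0.{u}) (hKZ1 : ST_KZ1.{u}) (hEHY : ST_EHY.{u})
    (hARI : ST_ARI.{u}) (hCYG : ST_CYG.{u}) (hSUB : ST_SUB.{u}) (hPFS : ST_PFS.{u}) :
    ST_E1.{u} := by
  intro E T Δ _ _ _ _ _ _ _ _ _ p hp hfr hDA ⟨i⟩ hC
  have hcard : Nat.card (T ≃ₐ[E] T) = p := by
    rw [IsGalois.card_aut_eq_finrank, hfr]
  have hnt : Nontrivial (T ≃ₐ[E] T) := by
    have : Finite (T ≃ₐ[E] T) := Nat.finite_of_card_ne_zero (by rw [hcard]; exact hp.ne_zero)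
    exact Finite.one_lt_card_iff_nontrivial.1 (by rw [hcard]; exact hp.one_lt)
  obtain ⟨σ, hσ⟩ := exists_ne (1 : T ≃ₐ[E] T)
  obtain ⟨y, hy0, hy⟩ := hSKN E Δ T i (i.comp (σ : T →ₐ[E] T)) hDA
  have hy' : ∀ t, y * i t = i (σ t) * y := fun t => hy t
  obtain ⟨d⟩ := hKZ0 E T Δ p σ i y hp hfr hσ hDA hy0 hy'
  obtain ⟨hnd, hKP⟩ := hKZ1 E T Δ p σ i y hp hfr hσ hDA hy0 hy' hC d
  have : FiniteDimensional E d.Z := d.fin
  obtain ⟨f, τ, hf0, hfτ⟩ := hARI E T d.Z p d.ζ hp hfr hnd d.z0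
    (hEHY E T Δ p σ i y hp hfr hσ hDA d hKP)
  have hcps := d.cps
  have : FiniteDimensional d.Z d.T' := hcps.fin
  have : IsGalois d.Z d.T' := hcps.gal
  have hcyc := d.cyc
  have hnorm : Algebra.norm d.Z (d.e τ) = Algebra.norm d.Z τ := Algebra.norm_eq_of_algEquiv d.e τ
  have hup : (d.i' (d.e τ) * d.y') ^ p = algebraMap d.Z d.K (algebraMap E d.Z f) := by
    rw [e1_pow2 d.σ' d.i' d.y' hcyc.yt, e1_norm p hp hcps.deg d.σ' hcps.ne, AlgHom.commutes,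
      hcyc.yp, ← map_mul, hnorm, ← hfτ]
  set y1 : Δ := d.h (d.i' (d.e τ) * d.y') with hy1
  have hy1p : y1 ^ p = algebraMap E Δ f := by
    rw [hy1, ← map_pow, hup, d.ha]
  have hy10 : y1 ≠ 0 := by
    intro h0
    rw [h0, zero_pow hp.ne_zero] at hy1p
    have : algebraMap E Δ f ≠ 0 := by
      rw [Ne, map_eq_zero_iff _ (algebraMap E Δ).injective]
      exact hf0
    exact this hy1p.symm
  have hy1c : ∀ t, y1 * i t = i (σ t) * y1 := by
    intro t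
    rw [hy1, ← d.hi t, ← d.hi (σ t), ← map_mul, ← map_mul]
    congr 1
    have hcm : ∀ a b : d.T', d.i' a * d.i' b = d.i' b * d.i' a := fun a b => by
      rw [← map_mul, mul_comm, map_mul]
    rw [mul_assoc, hcyc.yt, hcps.cmp, ← mul_assoc, ← mul_assoc, hcm]
  obtain ⟨K₁, iK1, iK2, k, i'', y'', _, _, hCD, _⟩ := hCYG E T Δ p σ i y1 f hp hfr hσ hy10 hy1c
    hy1p
  obtain ⟨C, iC1, iC2, hDC, _, ⟨eq⟩⟩ := hSUB E Δ K₁ p hDA hCD ⟨k⟩
  exact ⟨K₁, iK1, iK2, C, iC1, iC2, hCD, ⟨i''⟩, hDC,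
    hPFS E T K₁ C Δ p 0 hDC hDA ⟨i''⟩ ⟨eq⟩ hC, ⟨eq⟩⟩

end Pool.Agent.Helper71.KZ
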